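import Pool.Agent.AT8.Stmts2

/-!
# Squad AT8, row CID: existence of a coherent idempotent
-/

open scoped BigOperators

noncomputable section

namespace Pool.Agent.PP.T8.H84

open Pool.Agent.Helper51_AWC Pool.Agent.Helper79_WRA Pool.Agent.PP Pool.Agent.PP.KF
open Pool.Agent.PP.K9 Pool.Agent.PP.K9.H97 Pool.Agent.PP.H75 Pool.Agent.PP.T3 Pool.Agent.PP.T2

attribute [local instance] Ideal.Quotient.field

theorem cid (min : MinStmt) (lft : LftStmt) : CidStmt := by
  intro ℓ _ M _ hM G _ _ e V γ hL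
  obtain ⟨j, hj, hji, hjg, hjb, hjn⟩ := min ℓ M hM G e V γ hL
  obtain ⟨i, hi, _, hr⟩ := lft M G V ⊤ j hj (fun g hg => absurd (Subgroup.mem_top g) hg) hji
  refine ⟨i, hi, ?_, ?_, ?_⟩
  · rw [hr]
    exact hjg
  · intro z hz b hb
    rw [hr]
    exact hjb z hz b hb
  · intro κ hκ
    have := Fintype.ofFinite (Subgroup.centralizer (V : Set G))
    have h1 := hjn κ hκ
    have hκR : ∀ t : Subgroup.centralizer (V : Set G), κ t ∈ RM M :=
      fun t => RM_of_int (irr_integral hκ.1 t)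
    rw [finsum_eq_sum_of_fintype] at h1 ⊢
    rw [rr_sum _ _ (fun (t : Subgroup.centralizer (V : Set G)) _ =>
      (RM M).mul_mem (hi.rm (t : G)) (hκR t))]
    intro h2
    apply h1
    rw [← h2]
    refine Finset.sum_congr rfl fun t _ => ?_
    rw [rr_mul (hi.rm t) (hκR t), ← hr]
    rfl

end Pool.Agent.PP.T8.H84
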