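import Pool.Agent.AT8.Stmts2
import Pool.Agent.Helper66_PP.Pos1

/-!
# Squad AT8, row MIN: a minimal idempotent of the elements of the group ring which commute with `V`
-/

open scoped BigOperators

noncomputable section

namespace Pool.Agent.PP.T8.H84

open Pool.Agent.Helper51_AWC Pool.Agent.Helper79_WRA Pool.Agent.PP Pool.Agent.PP.KF
open Pool.Agent.PP.K9 Pool.Agent.PP.K9.H97 Pool.Agent.PP.H75 Pool.Agent.PP.T3 Pool.Agent.PP.T2

attribute [local instance] Ideal.Quotient.field

section alg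

variable {A : Type*} [Monoid A] {J W : A}

theorem idem_pow (hJ : J * J = J) {n : ℕ} (hn : 0 < n) : J ^ n = J := by
  obtain ⟨k, rfl⟩ := Nat.exists_eq_succ_of_ne_zero hn.ne'
  induction k with
  | zero => exact pow_one J
  | succ k ih => rw [pow_succ, ih (Nat.succ_pos k), hJ]

theorem key_pow (hJ : J * J = J) (hJW : J * W = W * J) {n : ℕ} (hn : 0 < n) :
    (J * W * J) ^ n = J * W ^ n := by
  have h1 : J * W * J = J * W := by rw [mul_assoc, ← hJW, ← mul_assoc, hJ]
  have hc : Commute J W := hJW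
  rw [h1, hc.mul_pow, idem_pow hJ hn]

theorem key_one (hJ : J * J = J) (hW : W * W = W) (hJW : J * W = W * J) {n : ℕ} (hn : 0 < n)
    (h : (J * W * J) ^ n = J) : J * W = J := by
  rw [key_pow hJ hJW hn, idem_pow hW hn] at h
  exact h

end alg

section pw

variable {F G : Type} [Field F] [Group G] [Finite G]

theorem ma_pw (x : G → F) (n : ℕ) : ma (pw x n) = ma x ^ n := by
  induction n with
  | zero =>
    rw [pow_zero]
    exact (ma_dl (F := F) (1 : G)).trans MonoidAlgebra.one_def.symm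
  | succ n ih =>
    change ma (mulF x (pw x n)) = _
    rw [ma_mul, ih, pow_succ']

theorem inv_dl (P : Subgroup G) : H66.Inv P (dl F (1 : G)) := by
  intro p _ t
  unfold dl
  by_cases h : t = 1
  · rw [if_pos h, if_pos]
    rw [h]
    group
  · rw [if_neg h, if_neg]
    intro h'
    apply h
    have e : t = p⁻¹ * (p * t * p⁻¹) * p := by group
    rw [e, h']
    group

theorem inv_pw {P : Subgroup G} {x : G → F} (hx : H66.Inv P x) (n : ℕ) : H66.Inv P (pw x n) := by
  induction n with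
  | zero => exact inv_dl P
  | succ n ih => exact hx.mulF ih

theorem br_dl (P : Subgroup G) : br P (dl F (1 : G)) = dl F (1 : G) := by
  funext t
  by_cases ht : t ∈ Subgroup.centralizer (P : Set G)
  · exact H66.br_of_mem ht
  · rw [H66.br_of_not_mem ht]
    unfold dl
    rw [if_neg]
    rintro rfl
    exact ht (one_mem _)

theorem br_pw {ℓ : ℕ} (hF : GoodF ℓ F) {P : Subgroup G} (hP : IsPGroup ℓ P) {x : G → F}
    (hx : H66.Inv P x) (n : ℕ) : br P (pw x n) = pw (br P x) n := by
  induction n with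
  | zero => exact br_dl P
  | succ n ih =>
    change br P (mulF x (pw x n)) = mulF (br P x) (pw (br P x) n)
    rw [H66.br_mulF hF hP hx (inv_pw hx n), ih]

/-- the restriction to the centraliser of `z` is a Brauer map -/
theorem rs_eq_br (z : G) (a : G → F) : rs (Cu z) a = br (Subgroup.zpowers z) a := by
  funext t
  have key : t ∈ Cu z ↔ t ∈ Subgroup.centralizer ((Subgroup.zpowers z : Subgroup G) : Set G) := by
    rw [Subgroup.mem_centralizer_iff, Subgroup.mem_centralizer_iff]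
    constructor
    · intro h x hx
      obtain ⟨k, rfl⟩ := Subgroup.mem_zpowers_iff.1 hx
      have h1 : Commute z t := h z rfl
      exact h1.zpow_left k
    · intro h x hx
      have h1 : x = z := hx
      rw [h1]
      exact h z (Subgroup.mem_zpowers z)
  unfold rs
  by_cases ht : t ∈ Cu z
  · rw [if_pos ht, H66.br_of_mem (key.1 ht)]
  · rw [if_neg ht, H66.br_of_not_mem (fun h => ht (key.2 h))]

/-- If `(j w j) ^ n = j` then `br (j) br (w) = br (j)`. -/
theorem br_one {ℓ : ℕ} (hF : GoodF ℓ F) {P : Subgroup G} (hP : IsPGroup ℓ P) {j w : G → F}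
    (hj : H66.Inv P j) (hw : H66.Inv P w) (hjj : mulF j j = j) (hww : mulF w w = w)
    (hc : mulF (br P j) (br P w) = mulF (br P w) (br P j)) {n : ℕ} (hn : 0 < n)
    (h : pw (mulF (mulF j w) j) n = j) : mulF (br P j) (br P w) = br P j := by
  apply ma_injective
  rw [ma_mul]
  refine key_one (n := n) ?_ ?_ ?_ hn ?_
  · rw [← ma_mul, ← H66.br_mulF hF hP hj hj, hjj]
  · rw [← ma_mul, ← H66.br_mulF hF hP hw hw, hww]
  · rw [← ma_mul, ← ma_mul, hc]
  · rw [← ma_mul, ← ma_mul, ← ma_pw, ← H66.br_mulF hF hP hj hw,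
      ← H66.br_mulF hF hP (hj.mulF hw) hj, ← br_pw hF hP ((hj.mulF hw).mulF hj), h]

/-- the rank of the left multiplication with `j` -/
def rkL (j : G → F) : ℕ := Module.finrank F (LinearMap.range (LinearMap.mulLeft F (ma j)))

theorem eq_of_rk {j j' : G → F} (hj : mulF j j = j) (hj' : mulF j' j' = j') (h1 : mulF j j' = j')
    (h2 : mulF j' j = j') (h : rkL j ≤ rkL j') : j' = j := by
  have k1 : ma j * ma j = ma j := by rw [← ma_mul, hj]
  have k2 : ma j' * ma j' = ma j' := by rw [← ma_mul, hj']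
  have k3 : ma j * ma j' = ma j' := by rw [← ma_mul, h1]
  have hle : LinearMap.range (LinearMap.mulLeft F (ma j')) ≤
      LinearMap.range (LinearMap.mulLeft F (ma j)) := by
    rintro x ⟨y, rfl⟩
    refine ⟨ma j' * y, ?_⟩
    rw [LinearMap.mulLeft_apply, LinearMap.mulLeft_apply, ← mul_assoc, k3]
  have heq := Submodule.eq_of_le_of_finrank_le hle h
  have h5 : ma j ∈ LinearMap.range (LinearMap.mulLeft F (ma j)) :=
    ⟨ma j, by rw [LinearMap.mulLeft_apply, k1]⟩
  rw [← heq] at h5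
  obtain ⟨y, hy⟩ := h5
  rw [LinearMap.mulLeft_apply] at hy
  apply ma_injective
  calc ma j' = ma j' * ma j := by rw [← ma_mul, h2]
    _ = ma j' * (ma j' * y) := by rw [hy]
    _ = ma j := by rw [← mul_assoc, k2, hy]

end pw

section phi

variable {M : Ideal (integralClosure ℤ ℂ)} [M.IsMaximal]

/-- the functional `a ↦ ∑ a(t) κ(t)` does not change under multiplication with the block -/
theorem phi_mul (idm : KF.IdmStmt) {H : Type} [Group H] [Finite H] {g : H → FF M}
    (hg : IsIdem g) {κ : H → ℂ} (hκ : κ ∈ IrrE M g) (a : H → FF M) :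
    ∑ᶠ t, mulF g a t * rr M (κ t) = ∑ᶠ t, a t * rr M (κ t) := by
  have := Fintype.ofFinite H
  choose a' ha' hra using fun t => rr_surj (a t)
  obtain ⟨h1, _, h3⟩ := idm M H g hg
  have h4 := (h3 κ hκ.1 a').1 hκ.2
  unfold chv at h4
  rw [finsum_eq_sum_of_fintype, finsum_eq_sum_of_fintype] at h4
  rw [finsum_eq_sum_of_fintype, finsum_eq_sum_of_fintype]
  have hκR : ∀ t, κ t ∈ RM M := fun t => RM_of_int (irr_integral hκ.1 t)
  have hm : ∀ t, mulF (eh M g) a' t ∈ RM M ∧ rr M (mulF (eh M g) a' t) = mulF g a t := by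
    intro t
    unfold mulF
    rw [finsum_eq_sum_of_fintype, finsum_eq_sum_of_fintype]
    have h5 : ∀ s ∈ Finset.univ, eh M g s * a' (s⁻¹ * t) ∈ RM M :=
      fun s _ => (RM M).mul_mem (h1 s).1 (ha' _)
    refine ⟨Subring.sum_mem _ h5, ?_⟩
    rw [rr_sum _ _ h5]
    refine Finset.sum_congr rfl fun s _ => ?_
    rw [rr_mul (h1 s).1 (ha' _), (h1 s).2, hra]
  have h6 := congrArg (rr M) h4
  rw [rr_sum _ _ (fun t _ => (RM M).mul_mem (hm t).1 (hκR t)),
    rr_sum _ _ (fun t _ => (RM M).mul_mem (ha' t) (hκR t))] at h6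
  calc ∑ t, mulF g a t * rr M (κ t) = ∑ t, rr M (mulF (eh M g) a' t * κ t) :=
        Finset.sum_congr rfl fun t _ => by rw [rr_mul (hm t).1 (hκR t), (hm t).2]
    _ = ∑ t, rr M (a' t * κ t) := h6
    _ = ∑ t, a t * rr M (κ t) :=
        Finset.sum_congr rfl fun t _ => by rw [rr_mul (ha' t) (hκR t), hra]

end phi

section main

variable {F G : Type} [Field F] [Group G] [Finite G]

/-- The claim: for a minimal `j`, some power of `j w j` is `j`. -/
theorem claim {ℓ : ℕ} (hF : GoodF ℓ F) (idp : IdpStmt) {V : Subgroup G} (hV : IsPGroup ℓ V)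
    {γ : G → F} (Φ : (G → F) → F) (hΦb : ∀ a, Φ (br V a) = Φ a)
    (hΦγ : ∀ a, Φ (mulF (br V a) γ) = Φ (br V a))
    {j : G → F} (hj : mulF j j = j) (hji : H66.Inv V j)
    (hjΦ : Φ j ≠ 0)
    (hmin : ∀ j' : G → F, mulF j' j' = j' → H66.Inv V j' → Φ j' ≠ 0 → rkL j ≤ rkL j')
    {w : G → F} (hw : H66.Inv V w) (hc : mulF (br V j) (br V w) = mulF (br V w) (br V j))
    (hwγ : mulF (br V w) γ = γ) :
    ∃ n : ℕ, 0 < n ∧ pw (mulF (mulF j w) j) n = j := by
  obtain ⟨n, hn, hidem⟩ := idp ℓ F hF G (mulF (mulF j w) j)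
  refine ⟨n, hn, ?_⟩
  have hx : H66.Inv V (mulF (mulF j w) j) := (hji.mulF hw).mulF hji
  have hJ : ma (br V j) * ma (br V j) = ma (br V j) := by
    rw [← ma_mul, ← H66.br_mulF hF hV hji hji, hj]
  have h1 : mulF j (pw (mulF (mulF j w) j) n) = pw (mulF (mulF j w) j) n := by
    apply ma_injective
    obtain ⟨k, rfl⟩ := Nat.exists_eq_succ_of_ne_zero hn.ne'
    rw [ma_mul, ma_pw, Nat.succ_eq_add_one, pow_succ', ← mul_assoc, ma_mul, ma_mul, ← mul_assoc,
      ← mul_assoc, ← ma_mul, hj]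
  have h2 : mulF (pw (mulF (mulF j w) j) n) j = pw (mulF (mulF j w) j) n := by
    apply ma_injective
    obtain ⟨k, rfl⟩ := Nat.exists_eq_succ_of_ne_zero hn.ne'
    have h0 : ma (mulF (mulF j w) j) * ma j = ma (mulF (mulF j w) j) := by
      rw [ma_mul (mulF j w) j, mul_assoc, ← ma_mul j j, hj]
    rw [ma_mul, ma_pw, Nat.succ_eq_add_one, pow_succ, mul_assoc, h0]
  have h3 : br V (pw (mulF (mulF j w) j) n) =
      pw (mulF (mulF (br V j) (br V w)) (br V j)) n := by
    rw [br_pw hF hV hx, H66.br_mulF hF hV (hji.mulF hw) hji, H66.br_mulF hF hV hji hw]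
  have h4 : mulF (br V (pw (mulF (mulF j w) j) n)) γ = mulF (br V j) γ := by
    apply ma_injective
    rw [h3, ma_mul, ma_pw, ma_mul, ma_mul, key_pow hJ (by rw [← ma_mul, hc, ma_mul]) hn, ma_mul,
      mul_assoc]
    congr 1
    have h5 : ma (br V w) * ma γ = ma γ := by rw [← ma_mul, hwγ]
    clear h1 h2 h3 hidem hn
    induction n with
    | zero => rw [pow_zero, one_mul]
    | succ k ih => rw [pow_succ, mul_assoc, h5, ih]
  have h5 : Φ (pw (mulF (mulF j w) j) n) ≠ 0 := by
    rw [← hΦb, ← hΦγ, h4, hΦγ, hΦb]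
    exact hjΦ
  exact eq_of_rk hj hidem h1 h2 (hmin _ hidem (inv_pw hx n) h5)

end main

theorem min (idp : IdpStmt) (rk1 : Rk1Stmt) (knz : KnzStmt) (dgc : DgcStmt)
    (idm : KF.IdmStmt) : MinStmt := by
  intro ℓ _ M _ hM G _ _ e V γ hL
  classical
  have hF : GoodF ℓ (FF M) := H50.fld ℓ Fact.out M hM
  have hVC : V ≤ Subgroup.centralizer (V : Set G) := by
    intro v hv
    rw [Subgroup.mem_centralizer_iff]
    intro w hw
    exact hL.ab w hw v hv
  have hgi : IsIdem (fun t : Subgroup.centralizer (V : Set G) => γ t) := hL.gam.blk.1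
  by_cases hemp : IrrE M (fun t : Subgroup.centralizer (V : Set G) => γ t) = ∅
  · refine ⟨0, H46.mulF_zero 0, fun _ _ _ => rfl, ?_, ?_, ?_⟩
    · rw [H66.br_zero]
      exact mulF_zero_left γ
    · intro z _ b _
      have h0 : rs (Cu z) (0 : G → FF M) = 0 := by
        funext t
        unfold rs
        split_ifs <;> rfl
      rw [h0]
      exact mulF_zero_left b
    · intro κ hκ
      rw [hemp] at hκ
      exact absurd hκ (Set.notMem_empty κ)
  obtain ⟨κ, hκ⟩ := Set.nonempty_iff_ne_empty.2 hemp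
  obtain ⟨c, hc⟩ := dgc ℓ M hM G e V γ hL
  obtain ⟨_, hk⟩ := knz ℓ M hM G e V γ hL c hc
  obtain ⟨⟨s, hs⟩, hkk⟩ := hk κ hκ
  obtain ⟨Φ, hΦ⟩ : ∃ Φ : (G → FF M) → FF M, ∀ a, Φ a =
      ∑ᶠ t : Subgroup.centralizer (V : Set G), a t * rr M (κ t) := ⟨_, fun _ => rfl⟩
  have hΦb : ∀ a, Φ (br V a) = Φ a := by
    intro a
    rw [hΦ, hΦ]
    exact finsum_congr fun t => by rw [H66.br_of_mem t.2]
  have hΦγ : ∀ a, Φ (mulF (br V a) γ) = Φ (br V a) := by
    intro a
    rw [hΦ, hΦ]
    have h1 := mulF_res (Subgroup.centralizer (V : Set G)) (a := br V a) γ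
      (fun x hx => H66.br_of_not_mem hx)
    have h2 := H46.mulF_comm hgi.1 (fun t : Subgroup.centralizer (V : Set G) => br V a t)
    have h3 := phi_mul idm hgi hκ (fun t : Subgroup.centralizer (V : Set G) => br V a t)
    rw [h2, ← h1] at h3
    exact h3
  -- the set of the idempotents is not empty
  obtain ⟨j₀, hj₀, hj₀Φ⟩ := rk1 ℓ M hM (Subgroup.centralizer (V : Set G)) κ hκ.1 (dl (FF M) s) (by
    rw [finsum_eq_single _ s]
    · rw [dl, if_pos rfl, one_mul]
      exact hs
    · intro t ht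
      rw [dl, if_neg ht, zero_mul])
  have hne : ∃ j : G → FF M, mulF j j = j ∧ H66.Inv V j ∧ Φ j ≠ 0 := by
    refine ⟨H75.ext0 (Subgroup.centralizer (V : Set G)) j₀, ?_, ?_, ?_⟩
    · have hs0 := ext0_supp (Subgroup.centralizer (V : Set G)) j₀
      have he : (fun t : Subgroup.centralizer (V : Set G) =>
          H75.ext0 (Subgroup.centralizer (V : Set G)) j₀ t) = j₀ := funext (ext0_apply _ j₀)
      apply eq_of_res (mulF_supp _ hs0 hs0) hs0
      rw [mulF_res _ _ hs0, he, hj₀]
    · intro v hv x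
      by_cases hx : x ∈ Subgroup.centralizer (V : Set G)
      · congr 1
        have h1 := Subgroup.mem_centralizer_iff.1 hx v hv
        rw [h1]
        group
      · rw [ext0_supp _ j₀ x hx, ext0_supp _ j₀]
        intro h
        apply hx
        have h2 := mul_mem (mul_mem (inv_mem (hVC hv)) h) (hVC hv)
        have e2 : v⁻¹ * (v * x * v⁻¹) * v = x := by group
        rwa [e2] at h2
    · rw [hΦ]
      intro h
      apply hj₀Φ
      rw [← h]
      exact finsum_congr fun t => by rw [ext0_apply]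
  -- a minimal one
  obtain ⟨j, ⟨hj, hji, hjΦ⟩, hmin⟩ : ∃ j : G → FF M, (mulF j j = j ∧ H66.Inv V j ∧ Φ j ≠ 0) ∧
      ∀ j' : G → FF M, mulF j' j' = j' → H66.Inv V j' → Φ j' ≠ 0 → rkL j ≤ rkL j' := by
    have h1 : (rkL '' {j : G → FF M | mulF j j = j ∧ H66.Inv V j ∧ Φ j ≠ 0}).Nonempty := by
      obtain ⟨j, hj⟩ := hne
      exact ⟨rkL j, j, hj, rfl⟩
    obtain ⟨j, hj, hjr⟩ := Nat.sInf_mem h1
    refine ⟨j, hj, fun j' a b c => ?_⟩
    rw [hjr]
    exact Nat.sInf_le ⟨j', ⟨a, b, c⟩, rfl⟩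
  have hV := hL.tp.pg
  have hcj : ∀ {w : G → FF M}, (∀ k ∈ Subgroup.centralizer (V : Set G), H75.cj k (br V w) = br V w) →
      mulF (br V j) (br V w) = mulF (br V w) (br V j) := fun {w} hw =>
    mulF_comm_of (K := Subgroup.centralizer (V : Set G)) (fun x hx => H66.br_of_not_mem hx) hw
  have hbγ : br V γ = γ := by
    funext t
    by_cases ht : t ∈ Subgroup.centralizer (V : Set G)
    · exact H66.br_of_mem ht
    · rw [H66.br_of_not_mem ht, hL.gam.supp t ht]
  refine ⟨j, hj, hji, ?_, ?_, ?_⟩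
  · -- the block of the centraliser
    have hinv : H66.Inv V γ := fun v hv => (cj_eq_iff v γ).1 (hL.gam.ix.inv (hVC hv))
    obtain ⟨n, hn, h⟩ := claim hF idp hV Φ hΦb hΦγ hj hji hjΦ hmin (w := γ) hinv
      (hcj (by rw [hbγ]; exact fun k hk => hL.gam.ix.inv hk)) (by rw [hbγ]; exact hL.gam.mul)
    have h2 := br_one hF hV hji hinv hj hL.gam.mul
      (hcj (by rw [hbγ]; exact fun k hk => hL.gam.ix.inv hk)) hn h
    rw [hbγ] at h2
    exact h2
  · -- the local blocks
    intro z hz b hb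
    have hVz : V ≤ Cu z := by
      intro v hv
      rw [Subgroup.mem_centralizer_iff]
      intro x hx
      have h1 : x = z := hx
      rw [h1]
      exact hL.ab z hz v hv
    have hCz : Subgroup.centralizer (V : Set G) ≤ Cu z := by
      intro v hv
      rw [Subgroup.mem_centralizer_iff]
      intro x hx
      have h1 : x = z := hx
      rw [h1]
      exact Subgroup.mem_centralizer_iff.1 hv z hz
    have hinv : H66.Inv V b := fun v hv => (cj_eq_iff v b).1 (hb.blk.ix.inv (hVz hv))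
    have hcb : ∀ k ∈ Subgroup.centralizer (V : Set G), H75.cj k (br V b) = br V b := by
      intro k hk
      rw [cj_eq_iff]
      intro x
      by_cases hx : x ∈ Subgroup.centralizer (V : Set G)
      · rw [H66.br_of_mem hx, H66.br_of_mem (mul_mem (mul_mem hk hx) (inv_mem hk))]
        exact (cj_eq_iff k b).1 (hb.blk.ix.inv (hCz hk)) x
      · rw [H66.br_of_not_mem hx, H66.br_of_not_mem]
        intro h
        apply hx
        have h2 := mul_mem (mul_mem (inv_mem hk) h) hk
        have e2 : k⁻¹ * (k * x * k⁻¹) * k = x := by group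
        rwa [e2] at h2
    obtain ⟨n, hn, h⟩ := claim hF idp hV Φ hΦb hΦγ hj hji hjΦ hmin (w := b) hinv (hcj hcb) hb.gam
    have hZV : Subgroup.zpowers z ≤ V := by
      rw [Subgroup.zpowers_le]
      exact hz
    have hZ : IsPGroup ℓ (Subgroup.zpowers z) := hV.to_le hZV
    have hbz : br (Subgroup.zpowers z) b = b := by
      rw [← rs_eq_br]
      funext t
      unfold rs
      by_cases ht : t ∈ Cu z
      · rw [if_pos ht]
      · rw [if_neg ht, hb.blk.supp t ht]
    have h2 := br_one hF hZ (fun p hp => hji p (hZV hp)) (fun p hp => hinv p (hZV hp)) hj hb.blk.mul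
      (by
        rw [hbz, ← rs_eq_br]
        refine mulF_comm_of (K := Cu z) (fun x hx => ?_) (fun k hk => hb.blk.ix.inv hk)
        unfold rs
        rw [if_neg hx]) hn h
    rw [hbz] at h2
    rw [rs_eq_br]
    exact h2
  · intro κ' hκ'
    have h1 : ∑ᶠ t : Subgroup.centralizer (V : Set G), j t * rr M (κ' t) = Φ j := by
      rw [hΦ]
      exact finsum_congr fun t => by rw [hkk κ' hκ' t]
    rw [h1]
    exact hjΦ

end Pool.Agent.PP.T8.H84
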